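import Pool.Agent.Y119.HG.Defs

/-!
Job HG-END (MP_eeb1a4_ag): endomorphisms have one eigenvalue.
-/

set_option autoImplicit false

open Matrix

namespace Pool.Agent.Y872.HG

open Pool.Agent.Y119.HG

section tri

variable {L : Type} [Field L] {m : ℕ}

theorem tri_mul (e f : Matrix (Fin m) (Fin m) L) (he : ∀ i j, i < j → e i j = 0)
    (hf : ∀ i j, i < j → f i j = 0) : ∀ i j, i < j → (e * f) i j = 0 := by
  intro i j hij
  rw [Matrix.mul_apply]
  refine Finset.sum_eq_zero fun x _ => ?_
  rcases lt_or_ge i x with h | h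
  · rw [he i x h, zero_mul]
  · rw [hf x j (lt_of_le_of_lt h hij), mul_zero]

theorem tri_diag (e f : Matrix (Fin m) (Fin m) L) (he : ∀ i j, i < j → e i j = 0)
    (hf : ∀ i j, i < j → f i j = 0) (i : Fin m) : (e * f) i i = e i i * f i i := by
  rw [Matrix.mul_apply]
  refine Finset.sum_eq_single i (fun x _ hx => ?_) (fun h => absurd (Finset.mem_univ i) h)
  rcases lt_or_gt_of_ne hx with h | h
  · rw [hf x i h, mul_zero]
  · rw [he i x h, zero_mul]

end tri

theorem t_END (h1 : T_ONE) (hS : T_DIMS) (hA : T_DIMA) : T_END := by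
  intro k L _ _ _ _ m hm ι _ _ G T hD a a' c b d hc hd ha ha'
  have hmap : ∀ x y : Matrix ι ι k, (x * y).map (algebraMap k L) =
      x.map (algebraMap k L) * y.map (algebraMap k L) := fun x y => Matrix.map_mul
  -- the sum
  have e1 : G * T * (a + a').map (algebraMap k L) =
      fromBlocks (c + dᵀ) 0 (b + -bᵀ) ((1 : L) • (c + dᵀ)ᵀ) * (G * T) := by
    rw [Matrix.map_add _ (map_add (algebraMap k L)), Matrix.mul_add, ha, ha', ← Matrix.add_mul,
      fromBlocks_add, add_zero, one_smul, transpose_add, transpose_transpose, add_comm d]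
  have t1 : ∀ i j, i < j → (c + dᵀ) i j = 0 := by
    intro i j hij
    rw [Matrix.add_apply, transpose_apply, hc i j hij, hd j i hij, add_zero]
  have r1 := h1 k L m ι G T hD 1 (one_mul 1) (a + a') (c + dᵀ) (b + -bᵀ) t1 e1
  have s1 : ∀ i j, (c + dᵀ) i i = (c + dᵀ) j j := by
    intro i j
    by_contra h
    have := hS L m hm (c + dᵀ) ⟨i, j, h⟩
    omega
  -- the difference
  obtain ⟨e, he⟩ : ∃ e, e = c + -dᵀ := ⟨_, rfl⟩
  obtain ⟨f, hf⟩ : ∃ f, f = b + bᵀ := ⟨_, rfl⟩
  have e2 : G * T * (a + -a').map (algebraMap k L) = fromBlocks e 0 f (-eᵀ) * (G * T) := by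
    have h2 : (-a').map (algebraMap k L) = -(a'.map (algebraMap k L)) := by
      ext i j
      simp
    rw [Matrix.map_add _ (map_add (algebraMap k L)), h2, Matrix.mul_add, Matrix.mul_neg, ha, ha',
      ← Matrix.neg_mul, ← Matrix.add_mul, fromBlocks_neg, fromBlocks_add, neg_zero, add_zero,
      neg_neg, he, hf, transpose_add, transpose_neg, transpose_transpose, neg_add, neg_neg,
      add_comm d]
  have t2 : ∀ i j, i < j → e i j = 0 := by
    intro i j hij
    rw [he, Matrix.add_apply, Matrix.neg_apply, transpose_apply, hc i j hij, hd j i hij,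
      neg_zero, add_zero]
  have e3 : G * T * ((a + -a') * (a + -a')).map (algebraMap k L) =
      fromBlocks (e * e) 0 (f * e + -eᵀ * f) ((1 : L) • (e * e)ᵀ) * (G * T) := by
    rw [hmap, ← Matrix.mul_assoc, e2, Matrix.mul_assoc, e2, ← Matrix.mul_assoc,
      fromBlocks_multiply]
    simp only [Matrix.mul_zero, Matrix.zero_mul, add_zero, zero_add, one_smul, transpose_mul,
      Matrix.neg_mul, Matrix.mul_neg, neg_neg, neg_zero]
  have r3 := h1 k L m ι G T hD 1 (one_mul 1) _ (e * e) _ (tri_mul e e t2 t2) e3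
  have s3 : ∀ i j, e i i * e i i = e j j * e j j := by
    intro i j
    by_contra h
    rw [← tri_diag e e t2 t2, ← tri_diag e e t2 t2] at h
    have := hS L m hm (e * e) ⟨i, j, h⟩
    omega
  have e4 : G * T * (a + -a').map (algebraMap k L) =
      fromBlocks e 0 f ((-1 : L) • eᵀ) * (G * T) := by
    rw [e2, neg_one_smul]
  have r4 := h1 k L m ι G T hD (-1) (by ring) _ e f t2 e4
  have i0 : Fin m := ⟨0, by omega⟩
  have s4 : ∀ i, e i i = 0 := by
    intro i
    by_contra h
    have := hA L m (by omega) e ⟨e i i * e i i, mul_ne_zero h h, fun j => s3 j i⟩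
    omega
  refine ⟨c i0 i0, fun i => ?_⟩
  have h5 : ∀ j, c j j = d j j := by
    intro j
    have h6 := s4 j
    rw [he, Matrix.add_apply, Matrix.neg_apply, transpose_apply] at h6
    exact add_neg_eq_zero.1 h6
  have h7 := s1 i i0
  rw [Matrix.add_apply, Matrix.add_apply, transpose_apply, transpose_apply, ← h5, ← h5] at h7
  have h8 : (2 : L) * (c i i - c i0 i0) = 0 := by linear_combination h7
  rcases mul_eq_zero.1 h8 with h9 | h9
  · exact absurd h9 two_ne_zero
  · have h10 : c i i = c i0 i0 := sub_eq_zero.1 h9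
    exact ⟨h10, by rw [← h5, h10]⟩

end Pool.Agent.Y872.HG
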